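import Pool.Agent.H31.DPD.Targets
import Pool.Agent.H91.LF.Basic

/-!
Module SS of the project DPD (`MP_c59857_nt`): a scale with a small defect, the minor arcs.
-/

set_option autoImplicit false

open Finset Filter Topology

namespace Pool.Agent.H34.DPD

open Pool.Agent.H24.T2 (Pset)
open Pool.Agent.H91.LF (abs_lz_le)
open Pool.Agent.H31.DP Pool.Agent.H31.DPD

theorem norm_ee (x : ℝ) : ‖ee x‖ = 1 := by
  unfold ee
  have h : (2 * Real.pi * Complex.I * x : ℂ) = ((2 * Real.pi * x : ℝ) : ℂ) * Complex.I := by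
    push_cast
    ring
  rw [h, Complex.norm_exp_ofReal_mul_I]

theorem abs_FF_le {l : ℕ} (h : Fin l → ℕ) (p : ℕ) (y : ℤ) : |FF h p y| ≤ 1 := by
  unfold FF
  rw [Finset.abs_prod]
  exact Finset.prod_le_one (fun i _ => abs_nonneg _) (fun i _ => abs_lz_le _)

theorem norm_SgP_le {l : ℕ} (h : Fin l → ℕ) (P : Polynomial ℝ) {N' N : ℕ} (hN : N' ≤ N) :
    ‖SgP h N P‖ ≤ ‖SgP h N' P‖ + ((N : ℝ) - N') := by
  induction N, hN using Nat.le_induction with
  | base => simp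
  | succ N hN ih =>
    have h1 : SgP h (N + 1) P = SgP h N P +
        ((FF h 1 ((N + 1 : ℕ) : ℤ) : ℝ) : ℂ) * ee (P.eval ((N + 1 : ℕ) : ℝ)) := by
      unfold SgP
      rw [Finset.sum_Icc_succ_top (by omega)]
    rw [h1]
    refine (norm_add_le _ _).trans ?_
    have h2 : ‖((FF h 1 ((N + 1 : ℕ) : ℤ) : ℝ) : ℂ) * ee (P.eval ((N + 1 : ℕ) : ℝ))‖ ≤ 1 := by
      rw [norm_mul, norm_ee, mul_one, Complex.norm_real, Real.norm_eq_abs]
      exact abs_FF_le _ _ _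
    push_cast at h2 ⊢
    linarith

theorem DDc_nonneg (d : ℕ) {l : ℕ} (h : Fin l → ℕ) (p M : ℕ) : 0 ≤ DDc d h p M := by
  unfold DDc
  exact mul_nonneg (by positivity) (Finset.sum_nonneg fun s _ => sq_nonneg _)

/-- the number of omitted terms -/
theorem drop_le (ε : ℝ) (P L p M N : ℕ) (hε : 0 < ε) (hP : 0 < P) (hp1 : P < p)
    (hp2 : p ≤ P + L) (hN : M / P = N) (hN8 : 8 ≤ ε * N) (hL : (L : ℝ) ≤ ε * P / 8) :
    (N : ℝ) - ((M / p : ℕ) : ℝ) ≤ ε * N / 4 := by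
  have hp0 : 0 < p := by omega
  have h1 : M < (M / p + 1) * p := by
    have := Nat.lt_div_mul_add (a := M) hp0
    calc M < M / p * p + p := this
      _ = (M / p + 1) * p := by ring
  have h2 : N * P ≤ M := by
    rw [← hN]
    exact Nat.div_mul_le_self M P
  have h3 : (N : ℝ) * P ≤ (((M / p : ℕ) : ℝ) + 1) * p := by
    have : N * P ≤ (M / p + 1) * p := h2.trans h1.le
    exact_mod_cast this
  have h4 : (p : ℝ) ≤ P + L := by exact_mod_cast hp2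
  have h5 : (P : ℝ) ≤ p := by exact_mod_cast hp1.le
  have hpR : (0 : ℝ) < p := by exact_mod_cast hp0
  have hN0 : (0 : ℝ) ≤ N := Nat.cast_nonneg N
  have h6 : (N : ℝ) * p ≤ N * P + N * (ε * P / 8) := by
    have h7 : (N : ℝ) * p ≤ N * (P + L) := mul_le_mul_of_nonneg_left h4 hN0
    have h8 : (N : ℝ) * L ≤ N * (ε * P / 8) := mul_le_mul_of_nonneg_left hL hN0
    linarith
  have h9 : (N : ℝ) * (ε * P / 8) ≤ N * (ε / 8) * p := by
    have h10 : (N : ℝ) * (ε / 8) * P ≤ N * (ε / 8) * p :=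
      mul_le_mul_of_nonneg_left h5 (by positivity)
    linarith
  have h11 : ((N : ℝ) - ((M / p : ℕ) : ℝ)) * p ≤ (ε * N / 8 + 1) * p := by linarith
  have h12 := le_of_mul_le_mul_right h11 hpR
  linarith

/-- the lower bound of the twisted sum of the correlations for a good prime -/
theorem good_lb (hLB : P_LB) (d l : ℕ) (h : Fin l → ℕ) (ε δ c : ℝ) (P L p Q M N : ℕ)
    (R : Polynomial ℝ) (hd : 0 < d) (hε : 0 < ε) (hε1 : ε ≤ 1) (hc : 0 < c)
    (hδ : (3 : ℝ) ^ d * δ ≤ c ^ 2)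
    (hcv : 2 * c * (3 ^ (2 ^ d - (d + 1)) * 2 ^ (d + 1)) ≤ (ε / 2) ^ (2 ^ d))
    (hp : p.Prime) (hpQ : p ∣ Q) (hQ : 0 < Q) (hP : 0 < P) (hp1 : P < p)
    (hp2 : p ≤ P + L) (hN : M / P = N) (hN8 : 8 ≤ ε * N) (hL : (L : ℝ) ≤ ε * P / 8)
    (hDD : DDc d h p M ≤ δ * (M : ℝ) ^ (d + 2)) (hR : R.natDegree ≤ d)
    (hS : ε * N < ‖SgP h N R‖) :
    c * (M : ℝ) ^ (d + 1) ≤ (Q : ℝ) ^ d * (RCc d h p Q M (R.coeff d)).re := by
  have hN8' : (8 : ℝ) ≤ N := by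
    have : ε * N ≤ 1 * N := mul_le_mul_of_nonneg_right hε1 (Nat.cast_nonneg N)
    linarith
  have hN8n : 8 ≤ N := by exact_mod_cast hN8'
  have hNP : N * P ≤ M := by
    rw [← hN]
    exact Nat.div_mul_le_self M P
  have hLP : L ≤ P := by
    have : (L : ℝ) ≤ P := by
      have h1 : ε * P ≤ 1 * P := mul_le_mul_of_nonneg_right hε1 (Nat.cast_nonneg P)
      have h2 : (0 : ℝ) ≤ P := Nat.cast_nonneg P
      linarith
    exact_mod_cast this
  have hpM : p ≤ M := by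
    have : 8 * P ≤ N * P := Nat.mul_le_mul_right P hN8n
    omega
  have hNN : M / p ≤ N := by
    rw [← hN]
    exact Nat.div_le_div_left hp1.le hP
  have hNpos : (0 : ℝ) < N := by linarith
  have h1 := drop_le ε P L p M N hε hP hp1 hp2 hN hN8 hL
  have h2 := norm_SgP_le h R hNN
  have h3 : ε / 2 * N ≤ ‖SgP h (M / p) R‖ := by
    have : 0 ≤ ε * N := by positivity
    linarith
  have h4 := hLB d l h p Q M R hd hR hp hpQ hQ hpM
  set S := (Q : ℝ) ^ d * (RCc d h p Q M (R.coeff d)).re +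
    Real.sqrt ((3 * (M : ℝ)) ^ d * DDc d h p M) with hSdef
  have hE : 2 ^ d = (2 ^ d - (d + 1)) + (d + 1) := by
    have : d < 2 ^ d := Nat.lt_two_pow_self
    omega
  set e := 2 ^ d - (d + 1) with he
  have hpR : (0 : ℝ) < p := by exact_mod_cast hp.pos
  have h5 : (p : ℝ) ^ (d + 1) * (ε / 2 * N) ^ (2 ^ d) ≤
      (p : ℝ) ^ (d + 1) * ‖SgP h (M / p) R‖ ^ (2 ^ d) := by
    refine mul_le_mul_of_nonneg_left ?_ (by positivity)
    exact pow_le_pow_left₀ (by positivity) h3 _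
  have h6 : 0 < (p : ℝ) ^ (d + 1) * (ε / 2 * N) ^ (2 ^ d) := by positivity
  have h7 : (0 : ℝ) ≤ (2 * ((M / p : ℕ) : ℝ) + 1) ^ e := by positivity
  have hS0 : 0 < S := by
    by_contra hneg
    have h8 : (2 * ((M / p : ℕ) : ℝ) + 1) ^ e * S ≤ 0 :=
      mul_nonpos_of_nonneg_of_nonpos h7 (not_lt.1 hneg)
    linarith
  have h9 : (2 * ((M / p : ℕ) : ℝ) + 1) ^ e ≤ (3 * (N : ℝ)) ^ e := by
    refine pow_le_pow_left₀ (by positivity) ?_ _
    have h10 : ((M / p : ℕ) : ℝ) ≤ N := by exact_mod_cast hNN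
    linarith
  have h10 : (p : ℝ) ^ (d + 1) * (ε / 2 * N) ^ (2 ^ d) ≤ (3 * (N : ℝ)) ^ e * S :=
    h5.trans (h4.trans (mul_le_mul_of_nonneg_right h9 hS0.le))
  have h11 : (ε / 2) ^ (2 ^ d) * ((N : ℝ) * p) ^ (d + 1) ≤ 3 ^ e * S := by
    have h12 : (N : ℝ) ^ e * ((ε / 2) ^ (2 ^ d) * ((N : ℝ) * p) ^ (d + 1)) ≤
        (N : ℝ) ^ e * (3 ^ e * S) := by
      have e1 : (N : ℝ) ^ e * ((ε / 2) ^ (2 ^ d) * ((N : ℝ) * p) ^ (d + 1)) =
          (p : ℝ) ^ (d + 1) * (ε / 2 * N) ^ (2 ^ d) := by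
        have e2 : (N : ℝ) ^ (2 ^ d) = (N : ℝ) ^ e * (N : ℝ) ^ (d + 1) := by
          rw [← pow_add, ← hE]
        rw [mul_pow (ε / 2) (N : ℝ) (2 ^ d), mul_pow (N : ℝ) (p : ℝ), e2]
        ring
      have e3 : (N : ℝ) ^ e * (3 ^ e * S) = (3 * (N : ℝ)) ^ e * S := by
        rw [mul_pow]
        ring
      rw [e1, e3]
      exact h10
    exact le_of_mul_le_mul_left h12 (by positivity)
  have h12 : (M : ℝ) ≤ 2 * ((N : ℝ) * p) := by
    have h13 : M < N * P + P := by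
      rw [← hN]
      exact Nat.lt_div_mul_add hP
    have h14 : M ≤ 2 * (N * p) := by
      have h15 : 1 * P ≤ N * P := Nat.mul_le_mul_right P (by omega)
      have h16 : N * P ≤ N * p := Nat.mul_le_mul_left N hp1.le
      omega
    exact_mod_cast h14
  have h13 : (M : ℝ) ^ (d + 1) ≤ 2 ^ (d + 1) * ((N : ℝ) * p) ^ (d + 1) := by
    rw [← mul_pow]
    exact pow_le_pow_left₀ (Nat.cast_nonneg M) h12 _
  have h14 : 2 * c * (M : ℝ) ^ (d + 1) ≤ S := by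
    have h15 : 2 * c * (M : ℝ) ^ (d + 1) ≤ 2 * c * (2 ^ (d + 1) * ((N : ℝ) * p) ^ (d + 1)) :=
      mul_le_mul_of_nonneg_left h13 (by positivity)
    have h16 : 2 * c * (3 ^ e * 2 ^ (d + 1)) * ((N : ℝ) * p) ^ (d + 1) ≤
        (ε / 2) ^ (2 ^ d) * ((N : ℝ) * p) ^ (d + 1) :=
      mul_le_mul_of_nonneg_right hcv (by positivity)
    have h17 : (3 : ℝ) ^ e * (2 * c * (M : ℝ) ^ (d + 1)) ≤ 3 ^ e * S := by
      calc (3 : ℝ) ^ e * (2 * c * (M : ℝ) ^ (d + 1))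
          ≤ 3 ^ e * (2 * c * (2 ^ (d + 1) * ((N : ℝ) * p) ^ (d + 1))) :=
            mul_le_mul_of_nonneg_left h15 (by positivity)
        _ = 2 * c * (3 ^ e * 2 ^ (d + 1)) * ((N : ℝ) * p) ^ (d + 1) := by ring
        _ ≤ (ε / 2) ^ (2 ^ d) * ((N : ℝ) * p) ^ (d + 1) := h16
        _ ≤ 3 ^ e * S := h11
    exact le_of_mul_le_mul_left h17 (by positivity)
  have h15 : Real.sqrt ((3 * (M : ℝ)) ^ d * DDc d h p M) ≤ c * (M : ℝ) ^ (d + 1) := by
    apply Real.sqrt_le_iff.2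
    refine ⟨by positivity, ?_⟩
    calc (3 * (M : ℝ)) ^ d * DDc d h p M
        ≤ (3 * (M : ℝ)) ^ d * (δ * (M : ℝ) ^ (d + 2)) :=
          mul_le_mul_of_nonneg_left hDD (by positivity)
      _ = (3 ^ d * δ) * ((M : ℝ) ^ (d + 1)) ^ 2 := by
          rw [mul_pow, ← pow_mul, show (d + 1) * 2 = d + (d + 2) by ring, pow_add]
          ring
      _ ≤ c ^ 2 * ((M : ℝ) ^ (d + 1)) ^ 2 := mul_le_mul_of_nonneg_right hδ (by positivity)
      _ = (c * (M : ℝ) ^ (d + 1)) ^ 2 := by ring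
  linarith

/-- the final contradiction -/
theorem fin_ineq (k : ℕ) (c a W τ g G B : ℝ) (hc : 0 < c) (ha : 0 < a) (hW : 0 < W)
    (hB : 0 < B) (h1 : (c * a) ^ (k + 2) ≤ G * a * W ^ k * (g + τ * W)) (hWB : W ≤ B * a)
    (hτ : G * B ^ (k + 1) * τ ≤ c ^ (k + 2) / 2)
    (hg : G * B ^ (k + 1) * g < c ^ (k + 2) / 2 * W) : False := by
  have h2 : c ^ (k + 2) * a ^ (k + 1) ≤ G * W ^ k * (g + τ * W) := by
    have h3 : a * (c ^ (k + 2) * a ^ (k + 1)) ≤ a * (G * W ^ k * (g + τ * W)) := by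
      calc a * (c ^ (k + 2) * a ^ (k + 1)) = (c * a) ^ (k + 2) := by
            rw [mul_pow, pow_succ a (k + 1)]
            ring
        _ ≤ G * a * W ^ k * (g + τ * W) := h1
        _ = a * (G * W ^ k * (g + τ * W)) := by ring
    exact le_of_mul_le_mul_left h3 ha
  have h3 : c ^ (k + 2) * (B * a) ^ (k + 1) ≤
      W ^ k * (G * B ^ (k + 1) * g + G * B ^ (k + 1) * τ * W) := by
    have h4 := mul_le_mul_of_nonneg_left h2 (by positivity : (0 : ℝ) ≤ B ^ (k + 1))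
    calc c ^ (k + 2) * (B * a) ^ (k + 1) = B ^ (k + 1) * (c ^ (k + 2) * a ^ (k + 1)) := by
          rw [mul_pow]
          ring
      _ ≤ B ^ (k + 1) * (G * W ^ k * (g + τ * W)) := h4
      _ = _ := by ring
  have h4 : G * B ^ (k + 1) * g + G * B ^ (k + 1) * τ * W < c ^ (k + 2) * W := by
    have h5 : G * B ^ (k + 1) * τ * W ≤ c ^ (k + 2) / 2 * W :=
      mul_le_mul_of_nonneg_right hτ hW.le
    linarith
  have h5 : c ^ (k + 2) * W ^ (k + 1) ≤ c ^ (k + 2) * (B * a) ^ (k + 1) :=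
    mul_le_mul_of_nonneg_left (pow_le_pow_left₀ hW.le hWB _) (by positivity)
  have h6 : W ^ k * (G * B ^ (k + 1) * g + G * B ^ (k + 1) * τ * W) <
      W ^ k * (c ^ (k + 2) * W) := mul_lt_mul_of_pos_left h4 (by positivity)
  have h7 : W ^ k * (c ^ (k + 2) * W) = c ^ (k + 2) * W ^ (k + 1) := by
    rw [pow_succ W k]
    ring
  linarith

/-- the eventual conditions on the scale -/
theorem exists_scale (k : ℕ) (κ c G g b : ℝ) (hκ : 0 < κ) (hc : 0 < c) :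
    ∃ m₀ : ℕ, 1 ≤ m₀ ∧ ∀ m, m₀ ≤ m → 2 ≤ κ * 2 ^ m ∧
      G * (b * m) ^ (k + 1) * g < c ^ (k + 2) / 2 * (2 * κ * 2 ^ m) := by
  have h1 : Tendsto (fun m : ℕ => (2 : ℝ) ^ m) atTop atTop :=
    tendsto_pow_atTop_atTop_of_one_lt one_lt_two
  have h2 : ∀ᶠ m : ℕ in atTop, 2 / κ ≤ (2 : ℝ) ^ m := h1.eventually_ge_atTop _
  have h3 : Tendsto (fun m : ℕ => (m : ℝ) ^ (k + 1) / (2 : ℝ) ^ m) atTop (𝓝 0) :=
    tendsto_pow_const_div_const_pow_of_one_lt (k + 1) one_lt_two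
  have h4 : Tendsto (fun m : ℕ => G * b ^ (k + 1) * g * ((m : ℝ) ^ (k + 1) / (2 : ℝ) ^ m)) atTop
      (𝓝 (G * b ^ (k + 1) * g * 0)) := h3.const_mul _
  rw [mul_zero] at h4
  have h5 : ∀ᶠ m : ℕ in atTop,
      G * b ^ (k + 1) * g * ((m : ℝ) ^ (k + 1) / (2 : ℝ) ^ m) < c ^ (k + 2) * κ :=
    h4.eventually_lt_const (by positivity)
  obtain ⟨m₀, hm₀⟩ := eventually_atTop.1 (h2.and h5)
  refine ⟨max 1 m₀, le_max_left _ _, fun m hm => ?_⟩
  obtain ⟨h6, h7⟩ := hm₀ m ((le_max_right _ _).trans hm)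
  have h2m : (0 : ℝ) < 2 ^ m := by positivity
  constructor
  · rw [div_le_iff₀ hκ] at h6
    linarith
  · have h8 : G * b ^ (k + 1) * g * (m : ℝ) ^ (k + 1) < c ^ (k + 2) * κ * 2 ^ m := by
      rw [← mul_div_assoc, div_lt_iff₀ h2m] at h7
      exact h7
    calc G * (b * m) ^ (k + 1) * g = G * b ^ (k + 1) * g * (m : ℝ) ^ (k + 1) := by
          rw [mul_pow]
          ring
      _ < c ^ (k + 2) * κ * 2 ^ m := h8
      _ = c ^ (k + 2) / 2 * (2 * κ * 2 ^ m) := by ring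

/-- many primes are good -/
theorem card_good (A0 S : Finset ℕ) (f : ℕ → ℝ) (δ κ T : ℝ) (hf : ∀ p, 0 ≤ f p) (hS : A0 ⊆ S)
    (hδ : 0 < δ) (hT : 0 < T) (h1 : κ / 2 * S.card ≤ A0.card)
    (h2 : ∑ p ∈ S, f p ≤ δ * κ / 8 * S.card * T) :
    κ / 4 * S.card ≤ ((A0.filter (fun p => f p ≤ δ * T)).card : ℝ) ∨ κ < 0 := by
  by_cases hκ : κ < 0
  · exact Or.inr hκ
  left
  have h3 : ((A0.filter (fun p => ¬ f p ≤ δ * T)).card : ℝ) * (δ * T) ≤ ∑ p ∈ S, f p := by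
    calc ((A0.filter (fun p => ¬ f p ≤ δ * T)).card : ℝ) * (δ * T)
        = ∑ _p ∈ A0.filter (fun p => ¬ f p ≤ δ * T), δ * T := by
          rw [Finset.sum_const, nsmul_eq_mul]
      _ ≤ ∑ p ∈ A0.filter (fun p => ¬ f p ≤ δ * T), f p :=
          Finset.sum_le_sum fun p hp => (not_le.1 (Finset.mem_filter.1 hp).2).le
      _ ≤ ∑ p ∈ S, f p := Finset.sum_le_sum_of_subset_of_nonneg
          ((Finset.filter_subset _ _).trans hS) (fun p _ _ => hf p)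
  have h4 : ((A0.filter (fun p => ¬ f p ≤ δ * T)).card : ℝ) ≤ κ / 8 * S.card := by
    have h5 : ((A0.filter (fun p => ¬ f p ≤ δ * T)).card : ℝ) * (δ * T) ≤
        κ / 8 * S.card * (δ * T) := by
      refine h3.trans (h2.trans (le_of_eq ?_))
      ring
    exact le_of_mul_le_mul_right h5 (by positivity)
  have h5 := Finset.card_filter_add_card_filter_not (s := A0) (fun p => f p ≤ δ * T)
  have h6 : ((A0.filter (fun p => f p ≤ δ * T)).card : ℝ) +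
      ((A0.filter (fun p => ¬ f p ≤ δ * T)).card : ℝ) = A0.card := by exact_mod_cast h5
  have h7 : 0 ≤ κ * S.card := mul_nonneg (not_lt.1 hκ) (Nat.cast_nonneg _)
  linarith

theorem pf_SS (hPG : StatementPG) (hLB : P_LB) (hCM : P_CM) : P_SS := by
  intro d l h ε c₀ hd hε hε1 hc₀
  -- the constants
  set κ : ℝ := ε / 16 with hκdef
  have hκ : 0 < κ := by positivity
  set c : ℝ := (ε / 2) ^ (2 ^ d) / (2 * (3 ^ (2 ^ d - (d + 1)) * 2 ^ (d + 1))) with hcdef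
  have hc : 0 < c := by positivity
  have hcv : 2 * c * (3 ^ (2 ^ d - (d + 1)) * 2 ^ (d + 1)) ≤ (ε / 2) ^ (2 ^ d) := by
    rw [hcdef]
    apply le_of_eq
    field_simp
  set δ : ℝ := c ^ 2 / 3 ^ d with hδdef
  have hδ : 0 < δ := by positivity
  have hδv : (3 : ℝ) ^ d * δ ≤ c ^ 2 := by
    rw [hδdef]
    apply le_of_eq
    field_simp
  obtain ⟨k, hk⟩ : ∃ k, 2 ^ (l + 1) = k + 2 := by
    have h1 : 2 ≤ 2 ^ (l + 1) := by
      calc 2 = 2 ^ 1 := by norm_num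
        _ ≤ 2 ^ (l + 1) := Nat.pow_le_pow_right (by norm_num) (by omega)
    exact ⟨2 ^ (l + 1) - 2, by omega⟩
  set G : ℝ := (2 * 3 ^ d) ^ (2 ^ (l + 1)) with hGdef
  have hG : 0 < G := by positivity
  set g : ℝ := 3 ^ d * ((l : ℝ) + 1) with hgdef
  have hg : 0 < g := by positivity
  obtain ⟨m₀, hm₀1, hm₀⟩ := exists_scale k κ c G g (16 / c₀) hκ hc
  refine ⟨δ * κ / 8, by positivity, m₀, fun m hm hcard => ?_⟩
  obtain ⟨hm1, hm2⟩ := hm₀ m hm
  have hmpos : (0 : ℝ) < m := by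
    have : 0 < m := by omega
    exact_mod_cast this
  have h2m : (0 : ℝ) < 2 ^ m := by positivity
  -- the length of the interval
  set L : ℕ := ⌈κ * 2 ^ m⌉₊ with hLdef
  have hL1 : κ * 2 ^ m ≤ L := Nat.le_ceil _
  have hL2 : (L : ℝ) < κ * 2 ^ m + 1 := Nat.ceil_lt_add_one (by positivity)
  have hL0 : 0 < L := by
    have : (0 : ℝ) < L := by linarith
    exact_mod_cast this
  have hPset : ∀ p ∈ Pset 1 m, 2 ^ m < p ∧ p ≤ 2 ^ (m + 1) ∧ p.Prime := by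
    intro p hp
    unfold Pool.Agent.H24.T2.Pset at hp
    rw [Finset.mem_filter, Finset.mem_Ioc] at hp
    exact ⟨hp.1.1, hp.1.2, hp.2.1⟩
  obtain ⟨P, hP1, hP2, hP3⟩ := hPG (Pset 1 m) m L hL0
    (fun p hp => ⟨(hPset p hp).1, (hPset p hp).2.1⟩)
  have hP0 : 0 < P := lt_of_lt_of_le (by positivity) hP1
  have hP1R : (2 : ℝ) ^ m ≤ P := by exact_mod_cast hP1
  refine ⟨P, hP0, hP2, ?_⟩
  set A0 := (Pset 1 m).filter (fun p => P < p ∧ p ≤ P + L) with hA0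
  -- many elements in the interval
  have hA0card : κ / 2 * ((Pset 1 m).card : ℝ) ≤ (A0.card : ℝ) := by
    have hκ1 : κ ≤ 1 / 16 := by
      rw [hκdef]
      linarith
    have hκm : κ * 2 ^ m ≤ 1 / 16 * 2 ^ m := mul_le_mul_of_nonneg_right hκ1 h2m.le
    have h1 : (2 : ℝ) ^ m + L ≤ 2 * 2 ^ m := by linarith
    have hcn : (0 : ℝ) ≤ ((Pset 1 m).card : ℝ) := Nat.cast_nonneg _
    have h2 : ((Pset 1 m).card : ℝ) * (κ * 2 ^ m) ≤ 2 * 2 ^ m * (A0.card : ℝ) :=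
      (mul_le_mul_of_nonneg_left hL1 hcn).trans
        (hP3.trans (mul_le_mul_of_nonneg_right h1 (Nat.cast_nonneg _)))
    have h3 : (2 * 2 ^ m) * (κ / 2 * ((Pset 1 m).card : ℝ)) ≤ (2 * 2 ^ m) * (A0.card : ℝ) := by
      calc (2 * 2 ^ m) * (κ / 2 * ((Pset 1 m).card : ℝ))
          = ((Pset 1 m).card : ℝ) * (κ * 2 ^ m) := by ring
        _ ≤ _ := h2
    exact le_of_mul_le_mul_left h3 (by positivity)
  have hA0mem : ∀ p ∈ A0, (P < p ∧ p ≤ P + L) ∧ p.Prime ∧ p ∈ Pset 1 m := by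
    intro p hp
    rw [hA0, Finset.mem_filter] at hp
    exact ⟨hp.2, (hPset p hp.1).2.2, hp.1⟩
  -- the modulus
  set Q : ℕ := ∏ p ∈ Pset 1 m, p with hQdef
  have hQ0 : 0 < Q := Finset.prod_pos fun p hp => (hPset p hp).2.2.pos
  -- the parameter of CM
  set B : ℝ := 16 / c₀ * m with hBdef
  have hB : 0 < B := by positivity
  set τ : ℝ := c ^ (k + 2) / (2 * (G * B ^ (k + 1))) with hτdef
  have hτ : 0 < τ := by positivity
  have hτv : G * B ^ (k + 1) * τ ≤ c ^ (k + 2) / 2 := by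
    rw [hτdef]
    apply le_of_eq
    field_simp
  have hKex : ∀ A ∈ A0.powerset, ∃ K : ℕ, ∀ M : ℕ, K ≤ M → ∀ γ : ℝ, MinorD K M d γ →
      (∀ p ∈ A, c * (M : ℝ) ^ (d + 1) ≤ (Q : ℝ) ^ d * (RCc d h p Q M γ).re) →
      (c * A.card) ^ (2 ^ (l + 1)) ≤
        (2 * 3 ^ d) ^ (2 ^ (l + 1)) * A.card * (2 * L + 1) ^ (2 ^ (l + 1) - 2) *
          (3 ^ d * (l + 1) + τ * (2 * L + 1)) := by
    intro A hA
    rw [Finset.mem_powerset] at hA
    refine hCM d l h c τ A L Q hd hc hτ hQ0 (fun p hp => (hA0mem p (hA hp)).2.1.pos) ?_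
    intro p hp q hq
    have h1 := (hA0mem p (hA hp)).1
    have h2 := (hA0mem q (hA hq)).1
    rw [abs_le]
    constructor
    · have : q ≤ p + L := by omega
      have : (q : ℤ) ≤ p + L := by exact_mod_cast this
      linarith
    · have : p ≤ q + L := by omega
      have : (p : ℤ) ≤ q + L := by exact_mod_cast this
      linarith
  choose! Kf hKf using hKex
  refine ⟨max ⌈8 / ε⌉₊ (A0.powerset.sup Kf), fun M N hKN hMN hdef R hR hmin => ?_⟩
  by_contra hcon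
  have hcon' : ε * N < ‖SgP h N R‖ := not_le.1 hcon
  have hN8 : 8 ≤ ε * N := by
    have h1 : (8 / ε : ℝ) ≤ N :=
      (Nat.le_ceil _).trans (by exact_mod_cast (le_max_left _ _).trans hKN)
    rw [div_le_iff₀ hε] at h1
    linarith
  have hN8' : (8 : ℝ) ≤ N := by
    have : ε * N ≤ 1 * N := mul_le_mul_of_nonneg_right hε1 (Nat.cast_nonneg N)
    linarith
  have hNM : N ≤ M := by
    rw [← hMN]
    exact Nat.div_le_self M P
  have hNMR : (N : ℝ) ≤ M := by exact_mod_cast hNM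
  have hMpos : (0 : ℝ) < M := by linarith
  have hLP : (L : ℝ) ≤ ε * P / 8 := by
    have h1 : (L : ℝ) ≤ 2 * (κ * 2 ^ m) := by linarith
    have h2 : κ * 2 ^ m ≤ κ * P := mul_le_mul_of_nonneg_left hP1R hκ.le
    have h3 : κ * P = ε * P / 16 := by
      rw [hκdef]
      ring
    linarith
  -- the good primes
  set A := A0.filter (fun p => DDc d h p M ≤ δ * (M : ℝ) ^ (d + 2)) with hAdef
  have hAcard : κ / 4 * ((Pset 1 m).card : ℝ) ≤ (A.card : ℝ) := by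
    rcases card_good A0 (Pset 1 m) (fun p => DDc d h p M) δ κ ((M : ℝ) ^ (d + 2))
      (fun p => DDc_nonneg d h p M) (Finset.filter_subset _ _) hδ (by positivity) hA0card hdef
      with h1 | h1
    · exact h1
    · exact absurd h1 (not_lt.2 hκ.le)
  have hAsub : A ∈ A0.powerset := Finset.mem_powerset.2 (Finset.filter_subset _ _)
  have hKA : Kf A ≤ N := (Finset.le_sup hAsub).trans ((le_max_right _ _).trans hKN)
  have hminM : MinorD (Kf A) M d (R.coeff d) := by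
    intro q hq1 hq2 a
    have hKK : Kf A ≤ max ⌈8 / ε⌉₊ (A0.powerset.sup Kf) :=
      (Finset.le_sup hAsub).trans (le_max_right _ _)
    have h1 := hmin q hq1 (hq2.trans hKK) a
    have h2 : (Kf A : ℝ) ≤ ((max ⌈8 / ε⌉₊ (A0.powerset.sup Kf) : ℕ) : ℝ) := by
      exact_mod_cast hKK
    have h3 : (N : ℝ) ^ d * |(q : ℝ) * R.coeff d - a| ≤
        (M : ℝ) ^ d * |(q : ℝ) * R.coeff d - a| :=
      mul_le_mul_of_nonneg_right (pow_le_pow_left₀ (Nat.cast_nonneg N) hNMR _) (abs_nonneg _)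
    exact h2.trans (h1.trans h3)
  have hbig := hKf A hAsub M (hKA.trans hNM) (R.coeff d) hminM (by
    intro p hp
    rw [hAdef, Finset.mem_filter] at hp
    obtain ⟨hpI, hpp, hpm⟩ := hA0mem p hp.1
    exact good_lb hLB d l h ε δ c P L p Q M N R hd hε hε1 hc hδv hcv hpp
      (Finset.dvd_prod_of_mem (fun p => p) hpm) hQ0 hP0 hpI.1 hpI.2 hMN hN8 hLP hp.2 hR hcon')
  rw [hk, Nat.add_sub_cancel] at hbig
  have hacard : 0 < (A.card : ℝ) := by
    have h1 : 0 < κ / 4 * ((Pset 1 m).card : ℝ) := by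
      have h2 : 0 < c₀ * 2 ^ m / m := by positivity
      have h3 : (0 : ℝ) < ((Pset 1 m).card : ℝ) := lt_of_lt_of_le h2 hcard
      positivity
    linarith
  have hWB : (2 * (L : ℝ) + 1) ≤ B * A.card := by
    have h1 : 2 * (L : ℝ) + 1 ≤ 4 * (κ * 2 ^ m) := by linarith
    have h2 : B * (κ / 4 * (c₀ * 2 ^ m / m)) = 4 * (κ * 2 ^ m) := by
      rw [hBdef]
      field_simp
      ring
    have h3 : B * (κ / 4 * (c₀ * 2 ^ m / m)) ≤ B * A.card := by
      refine mul_le_mul_of_nonneg_left ?_ hB.le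
      exact (mul_le_mul_of_nonneg_left hcard (by positivity)).trans hAcard
    linarith
  refine fin_ineq k c A.card (2 * (L : ℝ) + 1) τ g G B hc hacard (by positivity) hB ?_ hWB hτv ?_
  · rw [hGdef, hgdef, hk]
    exact hbig
  · refine lt_of_lt_of_le hm2 ?_
    refine mul_le_mul_of_nonneg_left ?_ (by positivity)
    linarith

end Pool.Agent.H34.DPD
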